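import Pool.Agent.H.MP_f07be6_gt.D

namespace Pool.Agent.Results.MP_f07be6_gt.One
open Real InnerProductSpace
open scoped ContDiff RealInnerProductSpace

/-- smooth closed curve whose derivatives of orders 1..n are everywhere independent -/
def Nondeg {n : ℕ} (γ : ℝ → EuclideanSpace ℝ (Fin n)) : Prop :=
  ContDiff ℝ ∞ γ ∧ Function.Periodic γ (2 * π) ∧
    ∀ t, LinearIndependent ℝ (fun j : Fin n => iteratedDeriv (j + 1) γ t)

/-- the plane unit circle traversed m times -/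
noncomputable def circ (n m : ℕ) (t : ℝ) : EuclideanSpace ℝ (Fin n) :=
  WithLp.toLp 2 fun i => if i.val = 0 then cos (m * t) else if i.val = 1 then sin (m * t) else 0

/-- every smooth neighbourhood of the m-fold circle contains a nondegenerate closed curve -/
def Approx (n m : ℕ) : Prop :=
  ∀ (k : ℕ) (ε : ℝ), 0 < ε → ∃ γ : ℝ → EuclideanSpace ℝ (Fin n), Nondeg γ ∧
    ∀ j ≤ k, ∀ t, ‖iteratedDeriv j γ t - iteratedDeriv j (circ n m) t‖ < ε

/-- the Frenet frame, indexed from 0 -/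
noncomputable def frame {n : ℕ} (γ : ℝ → EuclideanSpace ℝ (Fin n)) (i : ℕ) (t : ℝ) :
    EuclideanSpace ℝ (Fin n) :=
  gramSchmidtNormed ℝ (fun j : ℕ => iteratedDeriv (j + 1) γ t) i

/-- the curvatures, indexed from 0 -/
noncomputable def kappa {n : ℕ} (γ : ℝ → EuclideanSpace ℝ (Fin n)) (i : ℕ) (t : ℝ) : ℝ :=
  ⟪deriv (frame γ i) t, frame γ (i + 1) t⟫ / ‖deriv γ t‖

/-- length of the Frenet frame -/
noncomputable def len {n : ℕ} (γ : ℝ → EuclideanSpace ℝ (Fin n)) : ℝ :=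
  ∫ t in (0 : ℝ)..2 * π, √(∑ i ∈ Finset.range (n - 1), kappa γ i t ^ 2) * ‖deriv γ t‖

theorem result : ∀ n : ℕ, 4 ≤ n → IsLeast {m : ℕ | 1 ≤ m ∧ Approx n m} 1 ∧
    ∀ γ : ℝ → EuclideanSpace ℝ (Fin n), Nondeg γ → 2 * π < len γ := by
  intro n hn
  refine ⟨⟨⟨le_rfl, fun k ε hε => ?_⟩, fun m hm => hm.1⟩, fun γ h => ?_⟩
  · obtain ⟨m, rfl⟩ : ∃ m, n = m + 2 := ⟨n - 2, by omega⟩
    have e : circ (m + 2) 1 = Pool.Agent.H.MP_f07be6_gt.P
        (Fin.cons cos (Fin.cons sin fun _ _ => 0) : Fin (m + 2) → ℝ → ℝ) := by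
      funext t
      ext i
      refine Fin.cases ?_ (fun i => Fin.cases ?_ (fun i => ?_) i) i <;>
        simp [circ, Pool.Agent.H.MP_f07be6_gt.P]
    rw [e]
    exact Pool.Agent.H.MP_f07be6_gt.approx m k (by omega) ε hε
  · exact Pool.Agent.H.MP_f07be6_gt.long h.1 h.2.1 h.2.2 (by omega)

end Pool.Agent.Results.MP_f07be6_gt.One
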